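import Pool.Agent.helper62.LL.SpecG
import Pool.Agent.helper62.EN.XFL

/-!
# MP_07c750, project LL: row FIN (the assembly)
-/

set_option autoImplicit false

open scoped MatrixGroups ContDiff Topology UpperHalfPlane
open UpperHalfPlane MeasureTheory Filter Set

namespace Pool.Agent.LL

open Pool.Agent.EN (XG MG mkX mkM fl pr)

theorem FIN_meas (Γ : Subgroup SL(2, ℝ)) (t : ℝ) : Measurable (fl Γ t) := by
  have h := (EN.XFL_proof Γ).1.cont
  exact (h.comp (Continuous.prodMk_right t)).measurable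

theorem FIN_sys (Γ : Subgroup SL(2, ℝ)) (μ : Measure (XG Γ)) (hinv : ∀ t, μ.map (fl Γ t) = μ) :
    Sys μ (fl Γ 1) (fl Γ (-1)) := by
  have hF := (EN.XFL_proof Γ).1
  refine ⟨⟨FIN_meas Γ 1, hinv 1⟩, ⟨FIN_meas Γ (-1), hinv (-1)⟩, fun x => ?_, fun x => ?_⟩
  · rw [← hF.add, add_neg_cancel, hF.zero]
  · rw [← hF.add, neg_add_cancel, hF.zero]

theorem FIN_proof (h1 : LOC_stmt) (h2 : KAT_stmt) (h3 : JL1_stmt) (h4 : ENG_stmt) : FIN_stmt := by
  intro Γ μ E α β hΓ hμ hinv hE hα0 hα1 hSm hKS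
  by_contra hcon
  rw [not_le] at hcon
  have hprm : Measurable (pr Γ) := (EN.XFL_proof Γ).2.1.measurable
  have h2α : 0 < 2 - α := by linarith
  have hm : (1 - β) < μ.real (pr Γ ⁻¹' E) * (2 - α) := by
    rwa [div_lt_iff₀ h2α] at hcon
  have hh : ((1 - μ.real (pr Γ ⁻¹' E) * (2 - α) / 2 : ℝ) : EReal) < EN.KS μ (fl Γ 1) := by
    refine lt_of_lt_of_le ?_ hKS
    rw [EReal.coe_lt_coe_iff]
    linarith
  unfold EN.KS at hh
  rw [lt_iSup_iff] at hh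
  obtain ⟨p, hh⟩ := hh
  rw [lt_iSup_iff] at hh
  obtain ⟨P, hh⟩ := hh
  rw [lt_iSup_iff] at hh
  obtain ⟨hP, hh⟩ := hh
  obtain ⟨d, hd1, hd2⟩ := EReal.lt_iff_exists_real_btwn.1 hh
  rw [EReal.coe_lt_coe_iff] at hd1
  obtain ⟨ε, hε0, hε1, hε2⟩ : ∃ ε : ℝ, 0 < ε ∧ 4 * ε < d - (1 - μ.real (pr Γ ⁻¹' E) * (2 - α) / 2) ∧ 2 * ε < 2 - α := by
    refine ⟨min ((d - (1 - μ.real (pr Γ ⁻¹' E) * (2 - α) / 2)) / 8) ((2 - α) / 4), ?_, ?_, ?_⟩
    · exact lt_min (by linarith) (by linarith)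
    · have := min_le_left ((d - (1 - μ.real (pr Γ ⁻¹' E) * (2 - α) / 2)) / 8) ((2 - α) / 4)
      linarith
    · have := min_le_right ((d - (1 - μ.real (pr Γ ⁻¹' E) * (2 - α) / 2)) / 8) ((2 - α) / 4)
      linarith
  obtain ⟨J, L, hJm, hJT, hJL, hJH, hcyl⟩ := h1 (XG Γ) μ (fl Γ 1) (fl Γ (-1)) p P ε hμ (FIN_sys Γ μ hinv) hP hε0
  -- the entropy is small on the part over `E`
  have hz : μ ({x | α / 2 + 3 * ε < J x} ∩ pr Γ ⁻¹' E) = 0 := by
    have hle : ∀ κ : ℝ, 0 < κ → μ ({x | α / 2 + 3 * ε < J x} ∩ pr Γ ⁻¹' E) ≤ ENNReal.ofReal κ := by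
      intro κ hκ
      obtain ⟨𝒢, r, C, hGm, hGs, hGκ, hr0, hr1, hbox⟩ := h2 Γ μ p P J ε (α / 2 + 3 * ε) κ hΓ hμ hinv hP hJm hε0 hκ
        (by linarith) hcyl
      have hv : 2 * (α / 2 + 3 * ε - 2 * ε) = α + 2 * ε := by ring
      rw [hv] at hbox
      have h0 := h4 Γ μ 𝒢 E r C (α + 2 * ε) α hΓ hμ hinv hGm hE hr0 hr1 hα0 (by linarith) (by linarith) hSm hbox
      calc μ ({x | α / 2 + 3 * ε < J x} ∩ pr Γ ⁻¹' E)
          ≤ μ (({x | α / 2 + 3 * ε < J x} \ 𝒢) ∪ (𝒢 ∩ pr Γ ⁻¹' E)) := by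
            apply measure_mono
            rintro x ⟨hx1, hx2⟩
            by_cases hx : x ∈ 𝒢
            · exact Or.inr ⟨hx, hx2⟩
            · exact Or.inl ⟨hx1, hx⟩
        _ ≤ μ ({x | α / 2 + 3 * ε < J x} \ 𝒢) + μ (𝒢 ∩ pr Γ ⁻¹' E) := measure_union_le _ _
        _ ≤ ENNReal.ofReal κ := by rw [h0, add_zero]; exact hGκ
    by_contra hne
    have hpos : 0 < μ ({x | α / 2 + 3 * ε < J x} ∩ pr Γ ⁻¹' E) := pos_iff_ne_zero.2 hne
    have hfin : μ ({x | α / 2 + 3 * ε < J x} ∩ pr Γ ⁻¹' E) ≠ ⊤ := measure_ne_top _ _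
    have hr : 0 < (μ ({x | α / 2 + 3 * ε < J x} ∩ pr Γ ⁻¹' E)).toReal := ENNReal.toReal_pos hne hfin
    have := hle ((μ ({x | α / 2 + 3 * ε < J x} ∩ pr Γ ⁻¹' E)).toReal / 2) (by linarith)
    have h5 := ENNReal.toReal_mono ENNReal.ofReal_ne_top this
    rw [ENNReal.toReal_ofReal (by linarith)] at h5
    linarith
  have hz2 : μ {x | 1 + 3 * ε < J x} = 0 :=
    h3 Γ μ p P J ε (1 + 3 * ε) hΓ hμ hinv hP hJm hε0 (by linarith) hcyl
  -- the set where `J` is small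
  have hAm : MeasurableSet {x : XG Γ | J x ≤ α / 2 + 3 * ε} := measurableSet_le hJm measurable_const
  have hmA : μ.real (pr Γ ⁻¹' E) ≤ μ.real {x : XG Γ | J x ≤ α / 2 + 3 * ε} := by
    have h6 : μ (pr Γ ⁻¹' E) ≤ μ {x : XG Γ | J x ≤ α / 2 + 3 * ε} := by
      calc μ (pr Γ ⁻¹' E) ≤ μ ({x : XG Γ | J x ≤ α / 2 + 3 * ε} ∪ ({x | α / 2 + 3 * ε < J x} ∩ pr Γ ⁻¹' E)) := by
            apply measure_mono
            intro x hx
            rcases le_or_gt (J x) (α / 2 + 3 * ε) with h | h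
            · exact Or.inl h
            · exact Or.inr ⟨h, hx⟩
        _ ≤ μ {x : XG Γ | J x ≤ α / 2 + 3 * ε} + μ ({x | α / 2 + 3 * ε < J x} ∩ pr Γ ⁻¹' E) := measure_union_le _ _
        _ = μ {x : XG Γ | J x ≤ α / 2 + 3 * ε} := by rw [hz, add_zero]
    exact ENNReal.toReal_mono (measure_ne_top _ _) h6
  have hIJ : ∫ x, J x ∂μ ≤ ∫ x, (1 + 3 * ε - (1 - α / 2) * ({x : XG Γ | J x ≤ α / 2 + 3 * ε}.indicator (fun _ => (1 : ℝ)) x)) ∂μ := by
    have hi1 : Integrable J μ := by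
      refine Integrable.of_bound hJm.aestronglyMeasurable L (Eventually.of_forall fun x => ?_)
      rw [Real.norm_eq_abs, abs_of_nonneg (hJL x).1]
      exact (hJL x).2
    have hi2 : Integrable ({x : XG Γ | J x ≤ α / 2 + 3 * ε}.indicator (fun _ => (1 : ℝ))) μ :=
      (integrable_const (1 : ℝ)).indicator hAm
    refine integral_mono_ae hi1 ((integrable_const _).sub (hi2.const_mul _)) ?_
    have hae : ∀ᵐ x ∂μ, ¬ (1 + 3 * ε < J x) := by
      rw [ae_iff]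
      simpa using hz2
    filter_upwards [hae] with x hx
    by_cases hxA : J x ≤ α / 2 + 3 * ε
    · have : {x : XG Γ | J x ≤ α / 2 + 3 * ε}.indicator (fun _ => (1 : ℝ)) x = 1 :=
        Set.indicator_of_mem (show x ∈ {x : XG Γ | J x ≤ α / 2 + 3 * ε} from hxA) _
      simp only [this]
      linarith
    · have : {x : XG Γ | J x ≤ α / 2 + 3 * ε}.indicator (fun _ => (1 : ℝ)) x = 0 :=
        Set.indicator_of_notMem (show x ∉ {x : XG Γ | J x ≤ α / 2 + 3 * ε} from hxA) _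
      simp only [this]
      linarith
  have hI2 : ∫ x, (1 + 3 * ε - (1 - α / 2) * ({x : XG Γ | J x ≤ α / 2 + 3 * ε}.indicator (fun _ => (1 : ℝ)) x)) ∂μ
      = 1 + 3 * ε - (1 - α / 2) * μ.real {x : XG Γ | J x ≤ α / 2 + 3 * ε} := by
    have hi2 : Integrable ({x : XG Γ | J x ≤ α / 2 + 3 * ε}.indicator (fun _ => (1 : ℝ))) μ :=
      (integrable_const (1 : ℝ)).indicator hAm
    rw [integral_sub (integrable_const _) (hi2.const_mul _), integral_const_mul, integral_indicator_const _ hAm]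
    simp
  have hIH : (d : EReal) < ((∫ x, J x ∂μ + ε : ℝ) : EReal) := lt_of_lt_of_le hd2 hJH
  rw [EReal.coe_lt_coe_iff] at hIH
  rw [hI2] at hIJ
  have h7 : (1 - α / 2) * μ.real (pr Γ ⁻¹' E) ≤ (1 - α / 2) * μ.real {x : XG Γ | J x ≤ α / 2 + 3 * ε} :=
    mul_le_mul_of_nonneg_left hmA (by linarith)
  nlinarith [h7, hIJ, hIH, hε1]

end Pool.Agent.LL
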